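import Pool.Agent.U272.LB.Tr
import Pool.Agent.U272.LB.Fin

/-!
# The halving level of independent random lines: lower bounds

`n` independent random lines with a common absolutely continuous law on the pairs (slope,
intercept). `psi` (complexity of the `k`-level: the number of abscissae near which the level does not
follow a single line), `Simple` (no two equal lines, no three lines through a point), `sl` and `ic`
(slopes and intercepts) are those of the starting file
`Pool/Agent/Results/MP_a08d0a_co/IidLevel.lean`, where the expected complexity of the halving level
is shown to be at most `C n ^ (7/6)` for every law.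

Proof.  Take a family of `2 a` lines in general position, with `E` crossings with exactly `a - 1`
(or `a`) lines below, and let the random line be uniform in a tiny square (in the plane of slope and
intercept) around a random line of the family.  Two random lines are close to the two lines of such a
crossing with probability `E / (2 a) ^ 2`, and then the mass of the lines below their crossing differs
from `1/2` by at most `1 / a`.  If `n` is of order `a ^ 2`, exactly `(n - 2) / 2` of the other lines
are below this crossing with probability at least `c / √n`.  So the expected number of crossings of
this level is at least `c n ^ 2 E / (a ^ 2 √n)`, which is of order `√n E`.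
-/

set_option autoImplicit false

namespace Pool.Agent.Results.MP_a08d0a_co.IidLowerBound

open MeasureTheory Filter
open Pool.Agent.Results.MP_a08d0a_co.IidLevel (sl ic psi Simple)
open scoped ENNReal

/-- (1) Transfer: there is an absolute constant `c > 0` such that for every family of `2 a` lines in
general position, `a ≥ 4`, and every `n` between `a ^ 2` and `4 a ^ 2` some absolutely continuous law
of a random line has the following property: for `n` independent lines of this law the expected
complexity of the halving level is at least `c √n` times the complexity of the halving level of the
family.

(2) For every `C` and all large `n` there is an absolutely continuous law such that for `n`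
independent lines of this law the expected complexity of the halving level is at least
`n exp (C √(log n))`. -/
theorem result :
    (∃ c : ℝ, 0 < c ∧ ∀ (a n : ℕ) (A B : Fin (2 * a) → ℝ), 4 ≤ a → a ^ 2 ≤ n → n ≤ 4 * a ^ 2 →
      Function.Injective A → Simple A B →
      ∃ μ : Measure (ℝ × ℝ), IsProbabilityMeasure μ ∧ μ ≪ volume ∧
        ENNReal.ofReal (c * Real.sqrt n) * (psi A B a : ℝ≥0∞) ≤
        ∫⁻ P, (psi (sl P) (ic P) (n / 2) : ℝ≥0∞) ∂Measure.pi (fun _ : Fin n => μ)) ∧
    (∀ C : ℝ, ∀ᶠ n : ℕ in atTop, ∃ μ : Measure (ℝ × ℝ), IsProbabilityMeasure μ ∧ μ ≪ volume ∧
      ENNReal.ofReal (n * Real.exp (C * Real.sqrt (Real.log n))) ≤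
        ∫⁻ P, (psi (sl P) (ic P) (n / 2) : ℝ≥0∞) ∂Measure.pi (fun _ : Fin n => μ)) := by
  refine ⟨⟨1 / 2 ^ 39, by positivity, ?_⟩, Pool.Agent.U272.LB.lower⟩
  intro a n A B ha h1 h2 hinj hS
  exact Pool.Agent.U272.LB.transfer hS hinj ha h1 h2

end Pool.Agent.Results.MP_a08d0a_co.IidLowerBound
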