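import Pool.Agent.U272.IC.Sym
import Pool.Agent.U272.IC.FinalT

/-!
# Random lines whose law has a curve close to a level

`n` independent random lines with a common law `μ` on the pairs (slope, intercept), where `μ` is such
that the lines of the dual plane are null (then the `n` lines are almost surely in general position).
`psi` (complexity of the `k`-level: the number of abscissae near which the level does not follow a
single line), `sl` and `ic` (slopes and intercepts) are those of the starting file
`Pool/Agent/Results/MP_a08d0a_co/IidLevel.lean`, where the bound `C n (min (k, n - 1 - k) + 1) ^ (1/6)`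
is proved for every law; `height` is defined in `Pool/Agent/KLev/Levels.lean`, `CrossesOnce` in
`Pool/Agent/U272/DP/Lev.lean` (`CrossesOnce g l`: the sign of `height l x - g x` is a monotone or
antitone function of `x`).

Proof.  Take `m` lines in general position which cross the curve `g` at most once, and consider the
crossings whose level is in a window of `w` levels and with at most `J` lines strictly between them and
the curve.  The zone theorem for the curve cuts the plane into `O(m / J + 1)` slabs such that in each
of them these crossings are crossings of `O(J)` lines, with levels in a translated window; by Dey's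
argument for a window of levels there are `O(J (w ^ 2 J) ^ (1/3))` of them in a slab, so
`O(m (w ^ 2 J) ^ (1/3))` in all.  If the mass below the curve is everywhere `κ` up to `ε`, take
`m = α / δ ^ 2` independent lines, `w` of order `√(m α)` and `J` of order
`m (δ + |α - κ| + ε)`: the mass below the crossing of two independent lines is within `δ` of `α` with
probability `O((δ ^ 2 (δ + |α - κ| + ε)) ^ (1/3))`.  Given the crossing, the number of lines below it
is binomial; summing over the shells `δ = j √k / n` around `α = k / n` gives the bound.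
-/

set_option autoImplicit false

namespace Pool.Agent.Results.MP_a08d0a_co.IidNearCurve

open MeasureTheory Pool.Agent.H189R2.Iid
open Pool.Agent.U272.DP (CrossesOnce)
open Pool.Agent.Results.MP_a08d0a_co.IidLevel (sl ic psi)
open KLev.Levels (height)
open scoped ENNReal

/-- There is an absolute constant `C` such that for every law `μ` of a random line for which the
lines of the dual plane are null and every `n`, for `n` independent lines of law `μ`:

(1) if `g` is a measurable function whose graph is crossed at most once by almost every line, and the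
mass of the lines below `(x, g x)` is within `ε` of `κ` for all `x`, then the expected complexity of
the `k`-level is at most `C n (1 + (|k - κ n| + ε n) / √(min (k, n - 1 - k) + 1)) ^ (1/3)`;

(2) if `μ` is invariant under the reflection `(x, y) ↦ (x, 2 (a x + b) - y)` in some line
`o = (a, b)`, then it is at most `C n (1 + |2 k - n| / √(min (k, n - 1 - k) + 1)) ^ (1/3)`; so the
levels with `|2 k - n| ≤ √n` have linear expected complexity. -/
theorem result : ∃ C : ℝ, 0 < C ∧ ∀ (μ : Measure (ℝ × ℝ)) [IsProbabilityMeasure μ],
    (∀ a b c : ℝ, (a ≠ 0 ∨ b ≠ 0) → μ {y | a * y.1 + b * y.2 = c} = 0) →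
    (∀ (g : ℝ → ℝ) (κ ε : ℝ), Measurable g → (∀ᵐ l ∂μ, CrossesOnce g l) →
      (∀ x, |(μ {l | height l x < g x}).toReal - κ| ≤ ε) → ∀ n k : ℕ, k < n →
      ∫⁻ P, (psi (sl P) (ic P) k : ℝ≥0∞) ∂Measure.pi (fun _ : Fin n => μ) ≤
        ENNReal.ofReal (C * n * (1 + (|k - κ * n| + ε * n) /
          Real.sqrt ((min k (n - 1 - k) : ℕ) + 1)) ^ (1 / 3 : ℝ))) ∧
    (∀ o : ℝ × ℝ, μ.map (fun l => o + o - l) = μ → ∀ n k : ℕ, k < n →
      ∫⁻ P, (psi (sl P) (ic P) k : ℝ≥0∞) ∂Measure.pi (fun _ : Fin n => μ) ≤
        ENNReal.ofReal (C * n * (1 + |2 * k - (n : ℝ)| /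
          Real.sqrt ((min k (n - 1 - k) : ℕ) + 1)) ^ (1 / 3 : ℝ))) := by
  have hSS := SS_ge
  refine ⟨33600192 * SS, by positivity, ?_⟩
  intro μ _ hμ
  have key := fun (g : ℝ → ℝ) (κ ε : ℝ) (hg : Measurable g) (hc : ∀ᵐ l ∂μ, CrossesOnce g l)
    (hκ : ∀ x, |(μ {l | height l x < g x}).toReal - κ| ≤ ε) (n k : ℕ) (hk : k < n) =>
    Pool.Agent.U272.IC.psi_allT (μ := μ) hμ hg hc hκ hk
  refine ⟨key, ?_⟩
  intro o hs n k hk
  have h := key (height o) (1 / 2) 0 (Pool.Agent.U272.IC.measurable_height o)
    (Filter.Eventually.of_forall fun l => Pool.Agent.U272.IC.once_affine o l)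
    (fun x => by
      have := Pool.Agent.U272.IC.sym_half hμ hs x
      show |(μ {l : ℝ × ℝ | l.1 * x + l.2 < height o x}).toReal - 1 / 2| ≤ 0
      rw [this, sub_self, abs_zero]) n k hk
  refine h.trans (ENNReal.ofReal_le_ofReal ?_)
  apply mul_le_mul_of_nonneg_left _ (by positivity)
  have h1 : |(k : ℝ) - 1 / 2 * n| + 0 * n ≤ |2 * k - (n : ℝ)| := by
    have e : (k : ℝ) - 1 / 2 * n = 1 / 2 * (2 * k - n) := by ring
    rw [e, abs_mul, abs_of_nonneg (by norm_num : (0 : ℝ) ≤ 1 / 2)]
    have := abs_nonneg (2 * (k : ℝ) - n)
    linarith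
  have h2 := div_le_div_of_nonneg_right h1
    (Real.sqrt_nonneg (((min k (n - 1 - k) : ℕ) : ℝ) + 1))
  have h3 : 0 ≤ (|(k : ℝ) - 1 / 2 * n| + 0 * n) /
      Real.sqrt (((min k (n - 1 - k) : ℕ) : ℝ) + 1) := by positivity
  exact Real.rpow_le_rpow (by linarith) (by linarith) (by norm_num)

end Pool.Agent.Results.MP_a08d0a_co.IidNearCurve
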