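import Pool.Agent.U272.DP.Loc

/-!
# The part of a level that is close to a curve which crosses every line at most once

A line is a pair (slope, intercept).  `height`, `level`, `kLevel`, `IsVertex`, `complexity` and `e`
are defined in `Pool/Agent/KLev/Levels.lean` (namespace `KLev.Levels`): `height l x` is the height
of the line `l` at `x`, `level Γ p` the number of lines of `Γ` strictly below the point `p`, the
`k`-level is the closure of the set of points on the lines with exactly `k` lines strictly below,
its vertices are the points where it passes from one line to another, its complexity is the number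
of its vertices, and `e k n` is the maximum complexity of the `k`-level over all sets of `n` lines.
`SimpleFam` (no two lines parallel, no three through a common point) is defined in
`Pool/Agent/U272/AS/Lev.lean`, `CrossesOnce` in `Pool/Agent/U272/DP/Lev.lean`, `between` and `active`
in `Pool/Agent/U272/DP/Loc.lean`:

* `CrossesOnce g l`: the sign of `height l x - g x` is a monotone or antitone function of `x`,
* `between Γ g p`: the number of lines of `Γ` which pass strictly between the point `p` and the point
  `(p.1, g p.1)` of the graph of `g`,
* `active Γ V`: the lines of `Γ` which are neither above all points of `V` nor below all of them.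

Proof.  A crossing of two lines has rank at most `M` if at most `M` lines pass strictly between it
and the curve (on the vertical line through it).  There are at most `8 n` crossings of rank `0`: if
both lines go up through the curve, charge the crossing to the line which is closer to the curve
before it, if both go down, to the line which is closer after it; between two consecutive crossings
of the third kind (a line going up and a line going down) a line going up starts or a line going
down ends at the curve.  By random sampling at most `32 (M + 1) n` crossings have rank at most `M`.
Cut the `x`-axis into at most `98 n / (t + 2) + 1` slabs with at most `(t + 2) ^ 2` crossings of rank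
at most `3 t + 2` and at most `t + 1` lines that meet the curve in each.  A line which comes from
rank `3 t + 2` down to rank `t` in a slab has `t + 2` such crossings on the way.  So at most
`10 (t + 2)` lines come close to the curve in a slab, each other line is always above or always below
the curve and the vertices of rank at most `t` in the slab, and these vertices of the `k`-level of `Γ`
are vertices of one level of at most `10 (t + 2)` lines.  Dey's bound gives the explicit form.  Lines
which are above or below all the vertices in question can be left out from the beginning.
-/

set_option autoImplicit false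

namespace Pool.Agent.Results.MP_a08d0a_co.LevelNearCurve

open KLev.Levels

open Pool.Agent.U272.AS (SimpleFam)

open Pool.Agent.U272.DP (CrossesOnce between active)

/-- the maximum complexity of a level in an arrangement of at most `N` lines -/
noncomputable def eMax (N : ℕ) : ℕ :=
  (Finset.range (N + 1)).sup (fun m => (Finset.range m).sup (fun j => e j m))

/-- Let `Γ` be a set of lines, no two parallel and no three concurrent.

(1) Let `g` be a function (not assumed to be continuous) whose graph crosses every line of `Γ` at
most once, for example a line, let `V` be a set of vertices of the `k`-level such that at most `t`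
lines of `Γ` pass strictly between `v` and the graph of `g` for `v` in `V`, and let `N` be the number
of lines of `Γ` which are neither above all points of `V` nor below all of them.  Then
`|V| ≤ 40000 N (t + 1) ^ (1 / 3)`, and `|V|` is at most `200 (N / (t + 1) + 1)` times the maximum
complexity of a level of at most `10 (t + 2)` lines.

(2) In particular, if `g 0, ..., g (c - 1)` are such functions and above every `x` at least one of
them is within `t` levels of the `k`-level (for example, if some polygonal line with `c` edges is),
then the `k`-level has complexity at most `40000 c |Γ| (t + 1) ^ (1 / 3)`. -/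
theorem result (Γ : Finset (ℝ × ℝ)) (k t : ℕ) (hΓ : SimpleFam Γ) :
    (∀ (g : ℝ → ℝ) (V : Set (ℝ × ℝ)), (∀ l ∈ Γ, CrossesOnce g l) → (∀ v ∈ V, IsVertex Γ k v) →
      (∀ v ∈ V, between Γ g v ≤ t) →
      (V.ncard : ℝ) ≤ 40000 * (active Γ V).card * ((t : ℝ) + 1) ^ ((1 : ℝ) / 3) ∧
      (V.ncard : ℝ) ≤ 200 * ((active Γ V).card / ((t : ℝ) + 1) + 1) * eMax (10 * (t + 2))) ∧
    (∀ (c : ℕ) (g : Fin c → ℝ → ℝ), (∀ i, ∀ l ∈ Γ, CrossesOnce (g i) l) →
      (∀ x, ∃ i, level Γ (x, g i x) ≤ k + t ∧ k ≤ level Γ (x, g i x) + t) →
      (complexity Γ k : ℝ) ≤ 40000 * c * Γ.card * ((t : ℝ) + 1) ^ ((1 : ℝ) / 3)) := by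
  refine ⟨fun g V hg hV hb => ⟨Pool.Agent.U272.DP.loc_le hΓ hg hV hb, ?_⟩,
    fun c g hg ht => Pool.Agent.U272.DP.level_le hΓ hg ht⟩
  have h := Pool.Agent.U272.DP.loc_red hΓ hg hV hb (E := eMax (10 * (t + 2))) (by
    intro m hm j hj
    unfold eMax
    refine le_trans ?_ (Finset.le_sup (f := fun m => (Finset.range m).sup (fun j => e j m))
      (Finset.mem_range.2 (Nat.lt_succ_of_le hm)))
    exact Finset.le_sup (f := fun j => e j m) (Finset.mem_range.2 hj))
  refine h.trans (mul_le_mul_of_nonneg_right ?_ (Nat.cast_nonneg _))
  have ht0 : (0 : ℝ) ≤ t := Nat.cast_nonneg t
  have hn0 : (0 : ℝ) ≤ (active Γ V).card := Nat.cast_nonneg _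
  have h1 : 98 * ((active Γ V).card : ℝ) / ((t : ℝ) + 2) ≤
      98 * ((active Γ V).card / ((t : ℝ) + 1)) := by
    rw [mul_div_assoc]
    apply mul_le_mul_of_nonneg_left _ (by norm_num)
    apply div_le_div_of_nonneg_left hn0 (by linarith) (by linarith)
  have h2 : 0 ≤ ((active Γ V).card : ℝ) / ((t : ℝ) + 1) := by positivity
  linarith

end Pool.Agent.Results.MP_a08d0a_co.LevelNearCurve
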