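import Pool.Agent.U999.SH.KRes

/-!
# A single level of lines with noisy intercepts: a bound in terms of the level

The lines are `y = a l * x + B l`, `l : Fin n`; the slopes are arbitrary numbers of an interval of
length `A` and the intercepts are independent.

Definitions in `Pool/Agent/H189R2/Lev/Lines.lean` and in the starting file
`Pool/Agent/Results/MP_a08d0a_co/SmoothedLevel.lean`:

* `ht a B l x = a l * x + B l`,
* `Simple a B`: no two of the lines coincide and no three pass through a common point,
* `level a B k x`: the height of the `(k+1)`-st lowest line above `x`;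

in `Pool/Agent/U999/SH/KRes.lean` (namespace `Pool.Agent.U999.SH`):

* `psiOn a B k x₀ X`: the number of abscissae in `[x₀ - X, x₀ + X]` near which the `k`-level does not
  follow a single line, i.e. the number of vertices of the `k`-level above this interval,
* `NoiseLaw δ κ μ`: the measure `μ` on the real line has a density that vanishes outside some
  interval of length `δ` and is nowhere larger than `κ / δ`.

Proof idea.  After an affine change of coordinates `A = X = 1`, `x₀ = 0`.  Let `g_i` be the density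
of the height of the line `i` at `(x, y)` and `w_i = exp (- dist / δ)` the smooth weight around the
centre of its noise, `W = ∑ w_i`.  The density of crossings with `k` lines below is
`∑ |a i - a j| g_i g_j P (N_{ij} = k)`, and it is at most a constant times
`κ / δ (∑ |a i - a j| w_i w_j / W) T`, where `T` is the density of the lines with `k` lines below up to
a bounded error, so that `∫ T dy ≤ 4`.  The quotient is at most `W`; this is used where `W ≤ r`.
Where `W` is about `q > r` the numerator is averaged over a window of length `δ`; it is there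
`4 δ²` times the density of the crossings of independent lines with two-sided exponential
intercepts, whose level is within `O(q)` of `k` with probability at least `1 / 2`.  Of these there are
`O(n (k + 1)^(1/3) q^(2/3))` if `q ≤ k + 1` (Dey's argument for windows of levels) and `O(n q)` if
`q > k + 1` (the number of crossings of level `O(q)`).  Only `O(log (2 + 1 / δ))` scales `q = 8^i r`
are needed when `r ≥ n δ`.
-/

set_option autoImplicit false

namespace Pool.Agent.Results.MP_a08d0a_co.SmoothedLevelByDepth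

open MeasureTheory Pool.Agent.U999.SH
open scoped ENNReal
open Pool.Agent.Results.MP_a08d0a_co.SmoothedLevel (Simple ae_simple crossings measurable_ncard
  measurable_cr measurableSet_below)

lemma two_bounds {n : ℕ} {a : Fin n → ℝ} {ν : Fin n → Measure ℝ}
    {x₀ X : ℝ} {k : ℕ} (hk : k < n)
    (hS : ∀ᵐ B ∂Measure.pi ν, Simple a B) {f : ℕ → ℝ} (hf : ∀ i j, i ≤ j → f i ≤ f j)
    (h : ∀ i, ∫⁻ B, ((crossOn a B i x₀ X).ncard : ℝ≥0∞) ∂Measure.pi ν ≤ ENNReal.ofReal (f i))
    (hm : ∀ i, AEMeasurable (fun B : Fin n → ℝ => ((crossOn a B i x₀ X).ncard : ℝ≥0∞))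
      (Measure.pi ν)) :
    ∫⁻ B, (psiOn a B k x₀ X : ℝ≥0∞) ∂Measure.pi ν ≤ 2 * ENNReal.ofReal (f k) := by
  calc ∫⁻ B, (psiOn a B k x₀ X : ℝ≥0∞) ∂Measure.pi ν
      ≤ ∫⁻ B, (((crossOn a B k x₀ X).ncard : ℝ≥0∞) + ((crossOn a B (k - 1) x₀ X).ncard : ℝ≥0∞))
        ∂Measure.pi ν := by
        apply lintegral_mono_ae
        filter_upwards [hS] with B hB
        have h1 : (psiOn a B k x₀ X : ℝ≥0∞) ≤ (((crossOn a B k x₀ X).ncard +
          (if k = 0 then 0 else (crossOn a B (k - 1) x₀ X).ncard) : ℕ) : ℕ∞) := by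
          exact_mod_cast psiOn_le hB hk x₀ X
        refine h1.trans ?_
        rw [ENat.toENNReal_coe]
        split_ifs with h
        · simp
        · push_cast
          rfl
    _ = _ := lintegral_add_left' (hm k) _
    _ ≤ ENNReal.ofReal (f k) + ENNReal.ofReal (f k) :=
        add_le_add (h k) ((h (k - 1)).trans (ENNReal.ofReal_le_ofReal (hf _ _ (by omega))))
    _ = _ := by ring

lemma meas_cross {n : ℕ} (a : Fin n → ℝ) (k : ℕ) (x₀ X : ℝ) :
    Measurable (fun B : Fin n → ℝ => ((crossOn a B k x₀ X).ncard : ℝ≥0∞)) := by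
  have h := measurable_ncard (fun (B : Fin n → ℝ) (q : Fin n × Fin n) =>
    q ∈ crossings a B k ∧ |Pool.Agent.H189R2.Lev.cr a B q.1 q.2 - x₀| ≤ X) (fun q => by
      have h1 : MeasurableSet {B : Fin n → ℝ | q ∈ crossings a B k} :=
        (MeasurableSet.const _).inter
          ((MeasurableSet.const _).inter (measurableSet_below a k q.1 q.2))
      have h2 : MeasurableSet {B : Fin n → ℝ |
          |Pool.Agent.H189R2.Lev.cr a B q.1 q.2 - x₀| ≤ X} :=
        measurableSet_le ((measurable_cr a q.1 q.2).sub_const x₀).abs measurable_const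
      exact h1.inter h2)
  exact (measurable_of_countable (fun c : ℕ => (c : ℝ≥0∞))).comp h

/-- Let the slopes of `n` lines lie in an interval of length `A`, and let the intercepts be
independent, each with a density that is at most `κ / δ` and vanishes outside an interval of length
`δ`.  Then almost surely the arrangement is simple, and for every `k < n` the expected number of
vertices of the `k`-level above any interval of length `2 X` is at most
`240000 κ n (A X / δ)^(1/4)` and at most
`830000 κ (n^(3/4) (k + 1)^(1/4) (A X / δ)^(1/4) + n log (2 + A X / δ))`. -/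
theorem result (n : ℕ) (a : Fin n → ℝ) (A X x₀ δ κ : ℝ) (hA : 0 < A) (hX : 0 < X) (hδ : 0 < δ)
    (ha : ∀ i j, |a i - a j| ≤ A) (ν : Fin n → Measure ℝ) [∀ i, IsProbabilityMeasure (ν i)]
    (hν : ∀ i, NoiseLaw δ κ (ν i)) :
    (∀ᵐ B ∂Measure.pi ν, Simple a B) ∧
    ∀ k < n,
      ∫⁻ B, (psiOn a B k x₀ X : ℝ≥0∞) ∂Measure.pi ν ≤
        ENNReal.ofReal (240000 * κ * n * (A * X / δ) ^ (1 / 4 : ℝ)) ∧
      ∫⁻ B, (psiOn a B k x₀ X : ℝ≥0∞) ∂Measure.pi ν ≤
        ENNReal.ofReal (830000 * κ * ((n : ℝ) ^ (3 / 4 : ℝ) * ((k : ℝ) + 1) ^ (1 / 4 : ℝ) *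
          (A * X / δ) ^ (1 / 4 : ℝ) + n * Real.log (2 + A * X / δ))) := by
  classical
  obtain ⟨K, hK⟩ := noise_icc hδ hν
  have hS := ae_simple hK a
  refine ⟨hS, ?_⟩
  intro k hk
  have hAX : 0 < A * X := by positivity
  have ha' : ∀ i j, |a i / A - a j / A| ≤ 1 := by
    intro i j
    rw [← sub_div, abs_div, abs_of_pos hA, div_le_one hA]
    exact ha i j
  have e1 : (δ / (A * X)) ^ (-(1 / 4) : ℝ) = (A * X / δ) ^ (1 / 4 : ℝ) := by
    rw [Real.rpow_neg (by positivity), ← Real.inv_rpow (by positivity), inv_div]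
  have e2 : 1 / (δ / (A * X)) = A * X / δ := one_div_div _ _
  have hδ' : 0 < δ / (A * X) := by positivity
  -- `1 ≤ κ`
  have hκ : 1 ≤ κ := by
    choose D b h1 h2 h3 using hν
    refine one_le_kappa hδ ν h2 (c := fun i => b i + δ / 2) ?_ (by omega : 0 < n)
    intro i s
    refine (h3 i s).trans ?_
    by_cases hs : s ∈ Set.Icc (b i) (b i + δ)
    · rw [Set.indicator_of_mem hs, if_pos]
      rw [abs_le]
      constructor <;> linarith [hs.1, hs.2]
    · rw [Set.indicator_of_notMem hs]
      exact zero_le
  have hκ0 : 0 ≤ κ := by linarith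
  have half : ∀ x : ℝ, 2⁻¹ * ENNReal.ofReal (2 * x) = ENNReal.ofReal x := by
    intro x
    rw [ENNReal.ofReal_mul (by norm_num)]
    rw [show ENNReal.ofReal 2 = 2 by norm_num, ← mul_assoc,
      ENNReal.inv_mul_cancel (by norm_num) (by norm_num), one_mul]
  have dbl : ∀ x : ℝ, 2 * ENNReal.ofReal x = ENNReal.ofReal (2 * x) := by
    intro x
    rw [ENNReal.ofReal_mul (by norm_num)]
    norm_num
  constructor
  · have h := two_bounds (x₀ := x₀) (X := X) hk hS
      (f := fun _ => 120000 * κ * n * (A * X / δ) ^ (1 / 4 : ℝ))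
      (fun _ _ _ => le_rfl) (fun i => by
        have h1 := transfer a hA hX x₀ hδ hν i
          (ENNReal.ofReal (240000 * κ * n * (δ / (A * X)) ^ (-(1 / 4) : ℝ)))
          (fun c D hD ν' hp hν' hDκ => lines_bound (fun l => a l / A) c ha' hδ' hD ν' hν' hDκ i)
        refine h1.trans (le_of_eq ?_)
        rw [e1, ← half (120000 * κ * n * (A * X / δ) ^ (1 / 4 : ℝ))]
        congr 2
        ring) (fun i => (meas_cross a i x₀ X).aemeasurable)
    refine h.trans (le_of_eq ?_)
    rw [dbl]
    congr 1
    ring
  · have h := two_bounds (x₀ := x₀) (X := X) hk hS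
      (f := fun i => 415000 * κ * ((n : ℝ) ^ (3 / 4 : ℝ) * ((i : ℝ) + 1) ^ (1 / 4 : ℝ) *
          (A * X / δ) ^ (1 / 4 : ℝ) + n * Real.log (2 + A * X / δ)))
      (fun i j hij => by
        have hij' : (i : ℝ) ≤ j := by exact_mod_cast hij
        gcongr) (fun i => by
        have h1 := transfer a hA hX x₀ hδ hν i
          (ENNReal.ofReal (830000 * κ * ((n : ℝ) ^ (3 / 4 : ℝ) * ((i : ℝ) + 1) ^ (1 / 4 : ℝ) *
            (δ / (A * X)) ^ (-(1 / 4) : ℝ) + n * Real.log (2 + 1 / (δ / (A * X))))))
          (fun c D hD ν' hp hν' hDκ => lines_bound_k (fun l => a l / A) c ha' hδ' hD ν' hν' hDκ i)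
        refine h1.trans (le_of_eq ?_)
        rw [e1, e2, ← half (415000 * κ * ((n : ℝ) ^ (3 / 4 : ℝ) * ((i : ℝ) + 1) ^ (1 / 4 : ℝ) *
          (A * X / δ) ^ (1 / 4 : ℝ) + n * Real.log (2 + A * X / δ)))]
        congr 2
        ring) (fun i => (meas_cross a i x₀ X).aemeasurable)
    refine h.trans (le_of_eq ?_)
    rw [dbl]
    congr 1
    ring

end Pool.Agent.Results.MP_a08d0a_co.SmoothedLevelByDepth
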